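import Mathlib

/-!
# MP_312f56_gt: the additivity of `Split(Ω, Λ)` is at most the cofinality of the ultrafilter number

The additivity number of the family of the sets of reals with the property `Split(Ω, Λ)` is at
most `cf(𝔲)`, where `𝔲` is the least cardinality of a base of a nonprincipal ultrafilter on the
natural numbers.
-/

set_option autoImplicit false

open Cardinal Set

namespace Pool.Agent.Results.MP_312f56_gt.CofinalityOfU

/-- `𝒰` is a cover of `X` by relatively open subsets of `X`, none of which is `X`. -/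
def IsOpenCover (X : Set ℝ) (𝒰 : Set (Set ℝ)) : Prop :=
  (∀ V ∈ 𝒰, ∃ O : Set ℝ, IsOpen O ∧ V = O ∩ X) ∧ ⋃₀ 𝒰 = X ∧ X ∉ 𝒰

/-- `𝒰` is an open large cover of `X`: every point of `X` is in infinitely many members. -/
def IsLarge (X : Set ℝ) (𝒰 : Set (Set ℝ)) : Prop :=
  IsOpenCover X 𝒰 ∧ ∀ x ∈ X, {V | V ∈ 𝒰 ∧ x ∈ V}.Infinite

/-- `𝒰` is an open `ω`-cover of `X`: every finite subset of `X` is in some member. -/
def IsOmega (X : Set ℝ) (𝒰 : Set (Set ℝ)) : Prop :=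
  IsOpenCover X 𝒰 ∧ ∀ F : Set ℝ, F.Finite → F ⊆ X → ∃ V ∈ 𝒰, F ⊆ V

/-- `X` satisfies `Split(Ω, Λ)`: every open `ω`-cover of `X` is the union of two disjoint
subfamilies, each of which contains an open large cover of `X`. -/
def Split (X : Set ℝ) : Prop :=
  ∀ 𝒰 : Set (Set ℝ), IsOmega X 𝒰 → ∃ 𝒱 𝒲 : Set (Set ℝ), 𝒱 ∪ 𝒲 = 𝒰 ∧ 𝒱 ∩ 𝒲 = ∅ ∧
    (∃ 𝒱' ⊆ 𝒱, IsLarge X 𝒱') ∧ ∃ 𝒲' ⊆ 𝒲, IsLarge X 𝒲'

/-- The additivity number of `Split(Ω, Λ)`: the least cardinality of a family of sets of reals with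
`Split(Ω, Λ)` whose union does not have this property. -/
noncomputable def addSplit : Cardinal.{0} :=
  sInf {κ | ∃ 𝓕 : Set (Set ℝ), (∀ X ∈ 𝓕, Split X) ∧ ¬ Split (⋃₀ 𝓕) ∧ #𝓕 = κ}

/-- `B` is a base of the ultrafilter `U`. -/
def IsBase (B : Set (Set ℕ)) (U : Ultrafilter ℕ) : Prop :=
  (∀ b ∈ B, b ∈ U) ∧ ∀ C ∈ U, ∃ b ∈ B, b ⊆ C

/-- The ultrafilter number `𝔲`: the least cardinality of a base of a nonprincipal ultrafilter on
`ℕ`. -/
noncomputable def ultrafilterNumber : Cardinal.{0} :=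
  sInf {κ | ∃ (U : Ultrafilter ℕ) (B : Set (Set ℕ)),
    (∀ n : ℕ, ({n} : Set ℕ) ∉ U) ∧ IsBase B U ∧ #B = κ}

lemma ultrafilterNumber_le {U : Ultrafilter ℕ} {B : Set (Set ℕ)}
    (h1 : ∀ n : ℕ, ({n} : Set ℕ) ∉ U) (h2 : IsBase B U) : ultrafilterNumber ≤ #B :=
  csInf_le' ⟨U, B, h1, h2, rfl⟩

lemma exists_base : ∃ (U : Ultrafilter ℕ) (B : Set (Set ℕ)),
    (∀ n : ℕ, ({n} : Set ℕ) ∉ U) ∧ IsBase B U ∧ #B = ultrafilterNumber := by
  have h : ultrafilterNumber ∈ {κ | ∃ (U : Ultrafilter ℕ) (B : Set (Set ℕ)),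
      (∀ n : ℕ, ({n} : Set ℕ) ∉ U) ∧ IsBase B U ∧ #B = κ} :=
    csInf_mem ⟨_, Filter.hyperfilter ℕ, {X | X ∈ Filter.hyperfilter ℕ},
      fun n => Filter.notMem_hyperfilter_of_finite (Set.finite_singleton n),
      ⟨fun _ h => h, fun X hX => ⟨X, hX, Subset.rfl⟩⟩, rfl⟩
  exact h

lemma finite_notMem {U : Ultrafilter ℕ} (hU : ∀ n : ℕ, ({n} : Set ℕ) ∉ U) {s : Set ℕ}
    (hs : s.Finite) : s ∉ U := by
  intro h
  have h1 : ∃ n ∈ s, ({n} : Set ℕ) ∈ U := by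
    have h2 : (⋃ n ∈ s, ({n} : Set ℕ)) ∈ U := by simpa using h
    exact (Ultrafilter.finite_biUnion_mem_iff hs).1 h2
  obtain ⟨n, _, hn⟩ := h1
  exact hU n hn

/-- A nonprincipal ultrafilter on `ℕ` has no countable base. -/
lemma aleph0_lt_ultrafilterNumber : ℵ₀ < ultrafilterNumber := by
  by_contra hcon
  obtain ⟨U, B, hU, hB, hcard⟩ := exists_base
  have hc : B.Countable := by
    rw [← Cardinal.le_aleph0_iff_set_countable, hcard]
    exact not_lt.1 hcon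
  have hne : B.Nonempty := by
    obtain ⟨b, hb, _⟩ := hB.2 univ Filter.univ_mem
    exact ⟨b, hb⟩
  obtain ⟨e, he⟩ := hc.exists_eq_range hne
  have hinf : ∀ n, (e n).Infinite := fun n hfin =>
    finite_notMem hU hfin (hB.1 _ (he ▸ mem_range_self n))
  have hgt : ∀ n m : ℕ, ∃ k ∈ e n, m < k := fun n m => (hinf n).exists_gt m
  choose g hg1 hg2 using hgt
  let x : ℕ → ℕ := fun k => Nat.rec (g 0 0) (fun k r => g ((k + 1) / 2) r) k
  have hx0 : x 0 = g 0 0 := rfl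
  have hxs : ∀ k, x (k + 1) = g ((k + 1) / 2) (x k) := fun k => rfl
  have hmem : ∀ k, x k ∈ e (k / 2) := by
    intro k
    cases k with
    | zero => rw [hx0]; exact hg1 _ _
    | succ k => rw [hxs]; exact hg1 _ _
  have hmono : StrictMono x := strictMono_nat_of_lt_succ (fun k => by rw [hxs]; exact hg2 _ _)
  let S : Set ℕ := {m | ∃ i, m = x (2 * i)}
  have h1 : ∀ i, ¬ e i ⊆ S := by
    intro i h
    have h2 : x (2 * i + 1) ∈ e i := by
      have := hmem (2 * i + 1)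
      rwa [show (2 * i + 1) / 2 = i by omega] at this
    obtain ⟨j, hj⟩ := h h2
    have := hmono.injective (a₁ := 2 * i + 1) (a₂ := 2 * j) hj
    omega
  have h2 : ∀ i, ¬ e i ⊆ Sᶜ := by
    intro i h
    have h2 : x (2 * i) ∈ e i := by
      have := hmem (2 * i)
      rwa [show (2 * i) / 2 = i by omega] at this
    exact h h2 ⟨i, rfl⟩
  rcases Ultrafilter.mem_or_compl_mem U S with h | h
  · obtain ⟨b, hb, hbS⟩ := hB.2 _ h
    rw [he] at hb
    obtain ⟨i, rfl⟩ := hb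
    exact h1 i hbS
  · obtain ⟨b, hb, hbS⟩ := hB.2 _ h
    rw [he] at hb
    obtain ⟨i, rfl⟩ := hb
    exact h2 i hbS

/-- A centered family of fewer than `𝔲` sets (indexed by the finite subsets of `Y`) is split. -/
lemma exists_splitting {Y : Type} (hY : #Y < ultrafilterNumber) (T : Finset Y → Set ℕ)
    (hT : ∀ s, (T s).Infinite) (hmono : ∀ s t, s ⊆ t → T t ⊆ T s) :
    ∃ S : Set ℕ, ∀ s, (T s ∩ S).Infinite ∧ (T s ∩ Sᶜ).Infinite := by
  classical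
  by_contra hcon
  push Not at hcon
  have hcon' : ∀ S : Set ℕ, ∃ s, (T s ∩ S).Finite ∨ (T s ∩ Sᶜ).Finite := by
    intro S
    obtain ⟨s, hs⟩ := hcon S
    refine ⟨s, ?_⟩
    by_cases h : (T s ∩ S).Finite
    · exact Or.inl h
    · exact Or.inr (by simpa using hs h)
  let F : Filter ℕ :=
    { sets := {C | ∃ s, (T s ∩ Cᶜ).Finite}
      univ_sets := ⟨∅, by simp⟩
      sets_of_superset := by
        rintro C D ⟨s, hs⟩ hCD
        exact ⟨s, hs.subset (inter_subset_inter_right _ (compl_subset_compl.2 hCD))⟩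
      inter_sets := by
        rintro C D ⟨s, hs⟩ ⟨t, ht⟩
        refine ⟨s ∪ t, (hs.union ht).subset ?_⟩
        rintro n ⟨hn, hn'⟩
        rw [compl_inter] at hn'
        rcases hn' with h | h
        · exact Or.inl ⟨hmono _ _ Finset.subset_union_left hn, h⟩
        · exact Or.inr ⟨hmono _ _ Finset.subset_union_right hn, h⟩ }
  have hF : ∀ C : Set ℕ, C ∈ F ↔ ∃ s, (T s ∩ Cᶜ).Finite := fun C => Iff.rfl
  have hult : ∀ C : Set ℕ, Cᶜ ∉ F ↔ C ∈ F := by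
    intro C
    constructor
    · intro h
      obtain ⟨s, hs | hs⟩ := hcon' C
      · exact absurd ((hF _).2 ⟨s, by simpa using hs⟩) h
      · exact (hF _).2 ⟨s, hs⟩
    · rintro ⟨s, hs⟩ ⟨t, ht⟩
      refine hT (s ∪ t) ((hs.union ht).subset ?_)
      intro n hn
      by_cases h : n ∈ C
      · exact Or.inr ⟨hmono _ _ Finset.subset_union_right hn, by simpa using h⟩
      · exact Or.inl ⟨hmono _ _ Finset.subset_union_left hn, h⟩
  let U : Ultrafilter ℕ := Ultrafilter.ofComplNotMemIff F hult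
  have hU : ∀ C : Set ℕ, C ∈ U ↔ ∃ s, (T s ∩ Cᶜ).Finite := fun C => Iff.rfl
  have hnp : ∀ n : ℕ, ({n} : Set ℕ) ∉ U := by
    intro n h
    obtain ⟨s, hs⟩ := (hU _).1 h
    refine hT s ((hs.union (finite_singleton n)).subset ?_)
    intro m hm
    by_cases h : m = n
    · exact Or.inr h
    · exact Or.inl ⟨hm, h⟩
  let B : Set (Set ℕ) := range fun p : Finset Y × ℕ => T p.1 ∩ Ici p.2
  have hB : IsBase B U := by
    constructor
    · rintro b ⟨⟨s, k⟩, rfl⟩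
      refine (hU _).2 ⟨s, (finite_Iio k).subset ?_⟩
      rintro n ⟨h1, h2⟩
      by_contra h
      exact h2 ⟨h1, by simpa using h⟩
    · intro C hC
      obtain ⟨s, hs⟩ := (hU _).1 hC
      obtain ⟨k, hk⟩ := hs.bddAbove
      refine ⟨_, ⟨(s, k + 1), rfl⟩, ?_⟩
      rintro n ⟨h1, h2⟩
      by_contra h
      have h3 := hk ⟨h1, h⟩
      have h4 : k + 1 ≤ n := h2
      omega
  have hle : ultrafilterNumber ≤ #B := ultrafilterNumber_le hnp hB
  have hB' : #B ≤ #(Finset Y) * ℵ₀ := by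
    refine (Cardinal.mk_range_le).trans ?_
    simp
  have hlt : #(Finset Y) < ultrafilterNumber := by
    rcases finite_or_infinite Y with hfin | hinf
    · have : Finite (Finset Y) := inferInstance
      exact (Cardinal.lt_aleph0_of_finite _).trans aleph0_lt_ultrafilterNumber
    · rwa [Cardinal.mk_finset_of_infinite]
  have hlt2 : #(Finset Y) * ℵ₀ < ultrafilterNumber :=
    Cardinal.mul_lt_of_lt aleph0_lt_ultrafilterNumber.le hlt aleph0_lt_ultrafilterNumber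
  exact absurd (hle.trans hB') (not_le.2 hlt2)

/-- Every open `ω`-cover of a set of reals contains a countable `ω`-cover. -/
lemma exists_countable {Y : Set ℝ} {𝒰 : Set (Set ℝ)} (h𝒰 : IsOmega Y 𝒰) :
    ∃ 𝒰₀ ⊆ 𝒰, 𝒰₀.Countable ∧ ∀ F : Set ℝ, F.Finite → F ⊆ Y → ∃ V ∈ 𝒰₀, F ⊆ V := by
  classical
  let 𝔹 := TopologicalSpace.countableBasis ℝ
  have h𝔹 := TopologicalSpace.countable_countableBasis ℝ
  have hb := TopologicalSpace.isBasis_countableBasis ℝ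
  let P : Set (Set (Set ℝ)) := {t | Set.Finite t ∧ t ⊆ 𝔹}
  have hP : P.Countable := countable_ofPred_finite_subset h𝔹
  let Q : Set (Set (Set ℝ)) := {t | t ∈ P ∧ ∃ V ∈ 𝒰, ⋃₀ t ∩ Y ⊆ V}
  have hQ : Q.Countable := hP.mono (fun t ht => ht.1)
  have hch : ∀ t : Set (Set ℝ), ∃ V : Set ℝ, t ∈ Q → V ∈ 𝒰 ∧ ⋃₀ t ∩ Y ⊆ V := by
    intro t
    by_cases ht : t ∈ Q
    · obtain ⟨V, hV, hV'⟩ := ht.2
      exact ⟨V, fun _ => ⟨hV, hV'⟩⟩
    · exact ⟨∅, fun h => absurd h ht⟩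
  choose g hg using hch
  refine ⟨g '' Q, ?_, hQ.image g, ?_⟩
  · rintro V ⟨t, ht, rfl⟩
    exact (hg t ht).1
  · intro F hF hFY
    obtain ⟨V, hV, hFV⟩ := h𝒰.2 F hF hFY
    obtain ⟨O, hO, rfl⟩ := h𝒰.1.1 V hV
    have h1 : ∀ x : ℝ, ∃ b : Set ℝ, x ∈ F → b ∈ 𝔹 ∧ x ∈ b ∧ b ⊆ O := by
      intro x
      by_cases hx : x ∈ F
      · obtain ⟨b, hb1, hb2, hb3⟩ := hb.exists_subset_of_mem_open (hFV hx).1 hO
        exact ⟨b, fun _ => ⟨hb1, hb2, hb3⟩⟩
      · exact ⟨∅, fun h => absurd h hx⟩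
    choose b hb' using h1
    have ht : (b '' F) ∈ Q := by
      refine ⟨⟨hF.image b, ?_⟩, O ∩ Y, hV, ?_⟩
      · rintro _ ⟨x, hx, rfl⟩
        exact (hb' x hx).1
      · rintro y ⟨⟨_, ⟨x, hx, rfl⟩, hy⟩, hyY⟩
        exact ⟨(hb' x hx).2.2 hy, hyY⟩
    refine ⟨g (b '' F), ⟨_, ht, rfl⟩, ?_⟩
    intro x hx
    exact (hg _ ht).2 ⟨⟨b x, ⟨x, hx, rfl⟩, (hb' x hx).2.1⟩, hFY hx⟩

/-- Sets of reals of cardinality less than `𝔲` satisfy `Split(Ω, Λ)`. -/
lemma split_of_lt {Y : Set ℝ} (hY : #Y < ultrafilterNumber) : Split Y := by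
  classical
  intro 𝒰 h𝒰
  obtain ⟨𝒰₀, h0, hc, hω⟩ := exists_countable h𝒰
  have hsub : ∀ V ∈ 𝒰, V ⊆ Y := by
    intro V hV
    obtain ⟨O, _, rfl⟩ := h𝒰.1.1 V hV
    exact inter_subset_right
  -- every finite set is in infinitely many members
  have hinf : ∀ F : Set ℝ, F.Finite → F ⊆ Y → {V | V ∈ 𝒰₀ ∧ F ⊆ V}.Infinite := by
    intro F hF hFY hfin
    have h1 : ∀ V : Set ℝ, ∃ y : ℝ, V ∈ 𝒰₀ → y ∈ Y ∧ y ∉ V := by
      intro V
      by_cases hV : V ∈ 𝒰₀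
      · have h2 : ¬ Y ⊆ V := by
          intro h
          have : V = Y := Subset.antisymm (hsub V (h0 hV)) h
          exact h𝒰.1.2.2 (this ▸ h0 hV)
        obtain ⟨y, hy, hy'⟩ := not_subset.1 h2
        exact ⟨y, fun _ => ⟨hy, hy'⟩⟩
      · exact ⟨0, fun h => absurd h hV⟩
    choose y hy using h1
    obtain ⟨V, hV, hFV⟩ := hω (F ∪ y '' {V | V ∈ 𝒰₀ ∧ F ⊆ V}) (hF.union (hfin.image y)) (by
      rintro x (hx | ⟨V, hV, rfl⟩)
      · exact hFY hx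
      · exact (hy V hV.1).1)
    have h3 : F ⊆ V := subset_union_left.trans hFV
    exact (hy V hV).2 (hFV (Or.inr ⟨V, ⟨hV, h3⟩, rfl⟩))
  have h𝒰inf : 𝒰₀.Infinite := (hinf ∅ finite_empty (empty_subset _)).mono (fun V hV => hV.1)
  have : Countable 𝒰₀ := hc.to_subtype
  have : Infinite 𝒰₀ := h𝒰inf.to_subtype
  obtain ⟨hden⟩ := nonempty_denumerable 𝒰₀
  let e : 𝒰₀ ≃ ℕ := Denumerable.eqv 𝒰₀
  let W : ℕ → Set ℝ := fun n => (e.symm n : Set ℝ)
  have hW : ∀ n, W n ∈ 𝒰₀ := fun n => (e.symm n).2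
  have hWinj : Function.Injective W := fun a b h => e.symm.injective (Subtype.ext h)
  have hWsurj : ∀ V ∈ 𝒰₀, ∃ n, W n = V := fun V hV => ⟨e ⟨V, hV⟩, by simp [W]⟩
  let T : Finset Y → Set ℕ := fun s => {n | ∀ y ∈ s, (y : ℝ) ∈ W n}
  have hT : ∀ s, (T s).Infinite := by
    intro s hfin
    refine hinf ((fun y : Y => (y : ℝ)) '' (s : Set Y)) (s.finite_toSet.image _) ?_
      ((hfin.image W).subset ?_)
    · rintro _ ⟨y, _, rfl⟩
      exact y.2
    · rintro V ⟨hV, hV'⟩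
      obtain ⟨n, rfl⟩ := hWsurj V hV
      exact ⟨n, fun y hy => hV' ⟨y, hy, rfl⟩, rfl⟩
  obtain ⟨S, hS⟩ := exists_splitting hY T hT (fun s t hst n hn y hy => hn y (hst hy))
  have hlarge : ∀ R : Set ℕ, (∀ s, (T s ∩ R).Infinite) → IsLarge Y (W '' R) := by
    intro R hR
    have hsub' : W '' R ⊆ 𝒰 := by
      rintro _ ⟨n, _, rfl⟩
      exact h0 (hW n)
    refine ⟨⟨fun V hV => h𝒰.1.1 V (hsub' hV), ?_, fun h => h𝒰.1.2.2 (hsub' h)⟩, ?_⟩
    · apply Subset.antisymm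
      · exact sUnion_subset (fun V hV => hsub V (hsub' hV))
      · intro y hy
        obtain ⟨n, hn, hn'⟩ := (hR {⟨y, hy⟩}).nonempty
        exact ⟨W n, ⟨n, hn', rfl⟩, hn ⟨y, hy⟩ (Finset.mem_singleton_self _)⟩
    · intro y hy
      refine ((hR {⟨y, hy⟩}).image hWinj.injOn).mono ?_
      rintro _ ⟨n, ⟨hn, hn'⟩, rfl⟩
      exact ⟨⟨n, hn', rfl⟩, hn ⟨y, hy⟩ (Finset.mem_singleton_self _)⟩
  refine ⟨𝒰 \ (W '' Sᶜ), W '' Sᶜ, ?_, ?_, ⟨W '' S, ?_, hlarge S (fun s => (hS s).1)⟩,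
    ⟨W '' Sᶜ, Subset.rfl, hlarge Sᶜ (fun s => (hS s).2)⟩⟩
  · apply sdiff_union_of_subset
    rintro _ ⟨n, _, rfl⟩
    exact h0 (hW n)
  · exact sdiff_inter_self
  · rintro _ ⟨n, hn, rfl⟩
    refine ⟨h0 (hW n), ?_⟩
    rintro ⟨m, hm, hmn⟩
    exact hm (hWinj hmn ▸ hn)

/-- An embedding of the Cantor space in the real line. -/
lemma exists_embedding : ∃ f : (ℕ → Bool) → ℝ, Topology.IsClosedEmbedding f := by
  obtain ⟨f, _, hf, hinj⟩ := Perfect.exists_nat_bool_injection (C := (univ : Set ℝ))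
    ⟨isClosed_univ, fun x _ => by
      simpa [AccPt] using (inferInstance : (nhdsWithin x {x}ᶜ).NeBot)⟩ univ_nonempty
  exact ⟨f, hf.isClosedEmbedding hinj⟩

open Classical in
/-- The indicator of a set. -/
noncomputable def ind (A : Set ℕ) : ℕ → Bool := fun n => decide (n ∈ A)

lemma ind_iff (A : Set ℕ) (n : ℕ) : ind A n = true ↔ n ∈ A := by
  simp [ind]

/-- A set of reals which codes a base of an ultrafilter does not satisfy `Split(Ω, Λ)`. -/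
lemma not_split {f : (ℕ → Bool) → ℝ} (hf : Topology.IsClosedEmbedding f) {U : Ultrafilter ℕ}
    (hU : ∀ n : ℕ, ({n} : Set ℕ) ∉ U) {B : Set (Set ℕ)} (hB : IsBase B U) :
    ¬ Split ((fun A => f (ind A)) '' B) := by
  intro hsplit
  set X : Set ℝ := (fun A => f (ind A)) '' B with hX
  have hV : ∀ n : ℕ, ∃ V : Set ℝ, IsOpen V ∧ f ⁻¹' V = {χ | χ n = true} := by
    intro n
    have ho : IsOpen {χ : ℕ → Bool | χ n = true} := by
      have : Continuous (fun χ : ℕ → Bool => χ n) := continuous_apply n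
      exact (isOpen_discrete ({true} : Set Bool)).preimage this
    obtain ⟨V, hV, hV'⟩ := hf.isInducing.isOpen_iff.1 ho
    exact ⟨V, hV, hV'⟩
  choose V hVo hV' using hV
  have hmem : ∀ (A : Set ℕ) (n : ℕ), f (ind A) ∈ V n ↔ n ∈ A := by
    intro A n
    have h : ind A ∈ f ⁻¹' (V n) ↔ ind A n = true := by rw [hV' n]; rfl
    exact h.trans (ind_iff A n)
  let O : ℕ → Set ℝ := fun n => V n ∩ X
  have hO : ∀ (A : Set ℕ), A ∈ B → ∀ n, f (ind A) ∈ O n ↔ n ∈ A := by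
    intro A hA n
    constructor
    · intro h
      exact (hmem A n).1 h.1
    · intro h
      exact ⟨(hmem A n).2 h, ⟨A, hA, rfl⟩⟩
  have hω : IsOmega X (range O) := by
    refine ⟨⟨?_, ?_, ?_⟩, ?_⟩
    · rintro _ ⟨n, rfl⟩
      exact ⟨V n, hVo n, rfl⟩
    · apply Subset.antisymm
      · rintro x ⟨_, ⟨n, rfl⟩, hx⟩
        exact hx.2
      · rintro _ ⟨A, hA, rfl⟩
        have hne : A.Nonempty := Filter.nonempty_of_mem (hB.1 A hA)
        obtain ⟨n, hn⟩ := hne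
        exact ⟨O n, ⟨n, rfl⟩, (hO A hA n).2 hn⟩
    · rintro ⟨n, hn⟩
      have h1 : ({n} : Set ℕ)ᶜ ∈ U := by
        rcases Ultrafilter.mem_or_compl_mem U {n} with h | h
        · exact absurd h (hU n)
        · exact h
      obtain ⟨A, hA, hAn⟩ := hB.2 _ h1
      have h2 : f (ind A) ∈ O n := by
        rw [hn]
        exact ⟨A, hA, rfl⟩
      exact hAn ((hO A hA n).1 h2) rfl
    · intro F hF hFX
      have h1 : ∀ x : ℝ, ∃ A : Set ℕ, x ∈ F → A ∈ B ∧ f (ind A) = x := by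
        intro x
        by_cases hx : x ∈ F
        · obtain ⟨A, hA, hA'⟩ := hFX hx
          exact ⟨A, fun _ => ⟨hA, hA'⟩⟩
        · exact ⟨∅, fun h => absurd h hx⟩
      choose A hA using h1
      have h2 : (⋂ x ∈ F, A x) ∈ U := (Filter.biInter_mem hF).2 (fun x hx => hB.1 _ (hA x hx).1)
      obtain ⟨n, hn⟩ := Filter.nonempty_of_mem h2
      refine ⟨O n, ⟨n, rfl⟩, ?_⟩
      intro x hx
      rw [← (hA x hx).2]
      exact (hO _ (hA x hx).1 n).2 (mem_iInter₂.1 hn x hx)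
  obtain ⟨𝒱, 𝒲, hun, hdis, ⟨𝒱', hV1, hV2⟩, ⟨𝒲', hW1, hW2⟩⟩ := hsplit _ hω
  -- neither family can be large
  have key : ∀ 𝒞 𝒟 𝒟' : Set (Set ℝ), 𝒞 ∩ 𝒟 = ∅ → 𝒟' ⊆ 𝒟 → 𝒟 ⊆ range O → IsLarge X 𝒟' →
      {n | O n ∈ 𝒞} ∉ U := by
    intro 𝒞 𝒟 𝒟' h1 h2 h3 h4 h5
    obtain ⟨A, hA, hAS⟩ := hB.2 _ h5
    have h6 := h4.2 (f (ind A)) ⟨A, hA, rfl⟩
    obtain ⟨D, hD, hD'⟩ := h6.nonempty
    obtain ⟨n, rfl⟩ := h3 (h2 hD)
    have h7 : n ∈ A := (hO A hA n).1 hD'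
    have h8 : O n ∈ 𝒞 ∩ 𝒟 := ⟨hAS h7, h2 hD⟩
    rw [h1] at h8
    exact h8
  have hcover : {n | O n ∈ 𝒱} ∪ {n | O n ∈ 𝒲} ∈ U := by
    refine Filter.mem_of_superset Filter.univ_mem ?_
    intro n _
    have h : O n ∈ 𝒱 ∪ 𝒲 := by rw [hun]; exact ⟨n, rfl⟩
    exact h
  rcases (Ultrafilter.union_mem_iff).1 hcover with h | h
  · exact key 𝒱 𝒲 𝒲' hdis hW1 (by rw [← hun]; exact subset_union_right) hW2 h
  · exact key 𝒲 𝒱 𝒱' (by rw [inter_comm]; exact hdis) hV1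
      (by rw [← hun]; exact subset_union_left) hV2 h

/-- There is a family of at most `cf(𝔲)` sets of reals with `Split(Ω, Λ)` whose union does not have
this property. -/
theorem exists_family : ∃ 𝓕 : Set (Set ℝ), (∀ X ∈ 𝓕, Split X) ∧ ¬ Split (⋃₀ 𝓕) ∧
    #𝓕 ≤ ultrafilterNumber.ord.cof := by
  obtain ⟨f, hf⟩ := exists_embedding
  obtain ⟨U, B, hU, hB, hcard⟩ := exists_base
  let α := ultrafilterNumber.ord.ToType
  have hα : #α = #B := by
    rw [hcard]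
    simp [α]
  obtain ⟨e⟩ := Cardinal.eq.1 hα
  obtain ⟨C, hC, hCcard⟩ := Order.exists_cof_eq (α := α)
  let P : α → Set ℝ := fun c => (fun A => f (ind A)) '' ((fun a => (e a : Set ℕ)) '' Iic c)
  have hP : ∀ c, #(P c) < ultrafilterNumber := by
    intro c
    have h1 : #(Iic c) < ultrafilterNumber := by
      have h2 : #(Iio c) < ultrafilterNumber := by
        have := Cardinal.mk_Iio_lt (α := α) c (by simp [α])
        simpa [α] using this
      have h3 : #(Iic c) ≤ #(Iio c) + 1 := by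
        rw [← Iio_union_right]
        refine (Cardinal.mk_union_le _ _).trans ?_
        simp
      refine h3.trans_lt (Cardinal.add_lt_of_lt aleph0_lt_ultrafilterNumber.le h2 ?_)
      exact Cardinal.one_lt_aleph0.trans aleph0_lt_ultrafilterNumber
    exact (Cardinal.mk_image_le.trans Cardinal.mk_image_le).trans_lt h1
  refine ⟨P '' C, ?_, ?_, ?_⟩
  · rintro _ ⟨c, _, rfl⟩
    exact split_of_lt (hP c)
  · have h1 : ⋃₀ (P '' C) = (fun A => f (ind A)) '' B := by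
      ext x
      constructor
      · rintro ⟨_, ⟨c, _, rfl⟩, ⟨_, ⟨a, _, rfl⟩, rfl⟩⟩
        exact ⟨_, (e a).2, rfl⟩
      · rintro ⟨A, hA, rfl⟩
        obtain ⟨c, hc, hc'⟩ := hC (e.symm (⟨A, hA⟩ : B))
        exact ⟨P c, mem_image_of_mem P hc, mem_image_of_mem (fun A => f (ind A))
          ⟨e.symm (⟨A, hA⟩ : B), hc', by simp⟩⟩
    rw [h1]
    exact not_split hf hU hB
  · refine Cardinal.mk_image_le.trans ?_
    rw [hCcard]
    simp [α]

/-- **The additivity number of `Split(Ω, Λ)` is at most the cofinality of the ultrafilter number.**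
The set whose infimum is the additivity number is nonempty. -/
theorem result :
    (∃ 𝓕 : Set (Set ℝ), (∀ X ∈ 𝓕, Split X) ∧ ¬ Split (⋃₀ 𝓕)) ∧
      addSplit ≤ ultrafilterNumber.ord.cof := by
  obtain ⟨𝓕, h1, h2, h3⟩ := exists_family
  have h4 : addSplit ≤ #𝓕 := csInf_le' ⟨𝓕, h1, h2, rfl⟩
  exact ⟨⟨𝓕, h1, h2⟩, h4.trans h3⟩

end Pool.Agent.Results.MP_312f56_gt.CofinalityOfU
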